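import Mathlib
import Pool.Agent.H.MP_e86a57_co.Count

set_option autoImplicit false

namespace Pool.Agent.Results.MP_e86a57_co.Interval

open Filter Topology Pool.Agent.H.MP_e86a57_co

/-- The ratio `|Aut L| / |End_l L|`: endomorphisms preserve joins, meets, `0` and `1`, and the
automorphisms are the bijective ones. -/
noncomputable def r (L : Type) [Lattice L] [BoundedOrder L] : ℝ :=
  (Nat.card {f : BoundedLatticeHom L L // Function.Bijective f} : ℝ) /
    Nat.card (BoundedLatticeHom L L)

/-- The limiting set: all `x ∈ [0,1]` that are limits of `r (L k)` along finite lattices `L k`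
whose sizes tend to infinity. -/
def Lam : Set ℝ :=
  {x | x ∈ Set.Icc (0 : ℝ) 1 ∧
    ∃ (L : ℕ → Type) (_ : ∀ k, Fintype (L k)) (_ : ∀ k, Lattice (L k))
      (_ : ∀ k, BoundedOrder (L k)),
      Tendsto (fun k => Fintype.card (L k)) atTop atTop ∧ Tendsto (fun k => r (L k)) atTop (𝓝 x)}

lemma r_eq (a K : ℕ) : r (L a K) =
    (1 + ((3 * K + a + 9 : ℕ) : ℝ) / ((a + 1).factorial : ℝ))⁻¹ := by
  have h : (0 : ℝ) < (a + 1).factorial := by exact_mod_cast Nat.factorial_pos _
  rw [r, card_aut, card_end]
  push_cast
  field_simp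

lemma small : Tendsto (fun a : ℕ => ((a : ℝ) + 9) / ((a + 1).factorial : ℝ)) atTop (𝓝 0) := by
  have h1 : Tendsto (fun a : ℕ => (10 : ℝ) / a) atTop (𝓝 0) := tendsto_const_div_atTop_nhds_zero_nat _
  refine squeeze_zero' (Eventually.of_forall fun a => by positivity) ?_ h1
  filter_upwards [eventually_ge_atTop 1] with a ha
  have ha' : (1 : ℝ) ≤ a := by exact_mod_cast ha
  have h2 : ((a : ℝ) + 1) * a ≤ ((a + 1).factorial : ℝ) := by
    rw [Nat.factorial_succ]
    push_cast
    have : (a : ℝ) ≤ a.factorial := by exact_mod_cast Nat.self_le_factorial a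
    nlinarith
  rw [div_le_div_iff₀ (by positivity) (by positivity)]
  nlinarith

lemma size (K : ℕ → ℕ) : Tendsto (fun a => Fintype.card (L a (K a))) atTop atTop := by
  simp only [card_L]
  exact tendsto_atTop_mono (fun a => by simp only [id]; omega) tendsto_id

theorem result : Lam = Set.Icc 0 1 := by
  refine Set.Subset.antisymm (fun x hx => hx.1) fun x hx => ⟨hx, ?_⟩
  rcases hx.1.eq_or_lt with rfl | h0
  · refine ⟨fun a => L a (a * (a + 1).factorial), inferInstance, inferInstance, inferInstance,
      size _, ?_⟩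
    simp only [r_eq]
    refine Tendsto.inv_tendsto_atTop (tendsto_atTop_add_const_left _ _ ?_)
    refine tendsto_atTop_mono (fun a => ?_) tendsto_natCast_atTop_atTop
    have h : (0 : ℝ) < (a + 1).factorial := by exact_mod_cast Nat.factorial_pos _
    rw [le_div_iff₀ h]
    push_cast
    have : (0 : ℝ) ≤ a := Nat.cast_nonneg a
    nlinarith
  · set y : ℝ := x⁻¹ - 1 with hy
    have y0 : 0 ≤ y := sub_nonneg.2 ((one_le_inv₀ h0).2 hx.2)
    refine ⟨fun a => L a ⌊y * (a + 1).factorial / 3⌋₊, inferInstance, inferInstance,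
      inferInstance, size _, ?_⟩
    simp only [r_eq]
    rw [show x = (1 + y)⁻¹ by rw [hy]; simp]
    refine Tendsto.inv₀ (Tendsto.const_add _ ?_) (by positivity)
    have up : Tendsto (fun a : ℕ => y + ((a : ℝ) + 9) / ((a + 1).factorial : ℝ)) atTop (𝓝 y) := by
      simpa using small.const_add y
    refine tendsto_of_tendsto_of_tendsto_of_le_of_le tendsto_const_nhds up (fun a => ?_)
      (fun a => ?_)
    · have h : (0 : ℝ) < (a + 1).factorial := by exact_mod_cast Nat.factorial_pos _
      have := Nat.lt_floor_add_one (y * (a + 1).factorial / 3)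
      have h3 : (0 : ℝ) ≤ a := Nat.cast_nonneg a
      simp only
      rw [le_div_iff₀ h]
      push_cast at this ⊢
      linarith
    · have h : (0 : ℝ) < (a + 1).factorial := by exact_mod_cast Nat.factorial_pos _
      have := Nat.floor_le (show 0 ≤ y * (a + 1).factorial / 3 by positivity)
      simp only
      rw [div_le_iff₀ h, add_mul, div_mul_cancel₀ _ h.ne']
      push_cast at this ⊢
      linarith

end Pool.Agent.Results.MP_e86a57_co.Interval
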